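import Pool.Agent.R287.SNb

open MeasureTheory AddCircle
open Pool.Agent.R287.HS Pool.Agent.R287.SN
open scoped Matrix

namespace Pool.Agent.Results.MP_e84edf_an.SubnormalNeither

/-- There are a bounded symbol `Φ` with values in the `2 × 2` matrices and a finite
Blaschke-Potapov product `B` with `Φ = B Φ*` on the circle such that `T_Φ` is subnormal but neither
normal nor analytic. -/
theorem result :
    ∃ (Φ : Cir → Matrix (Fin 2) (Fin 2) ℂ) (B : ℂ → Matrix (Fin 2) (Fin 2) ℂ),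
      IsBddSymbol Φ ∧ IsBlaschkePotapov B ∧
      (∀ᵐ t ∂haarAddCircle, Φ t = B (fourier 1 t) * (Φ t)ᴴ) ∧ ¬ IsAnalyticSymbol Φ ∧
      ∀ (H : Type) [NormedAddCommGroup H] [InnerProductSpace ℂ H] [CompleteSpace H]
        (e : HilbertBasis (ℕ × Fin 2) ℂ H), ∃ T : H →L[ℂ] H,
        IsBlockToeplitz e Φ T ∧ IsSubnormal T ∧ ¬ IsNormalOp T :=
  ⟨Phi, BB, Phi_bdd, isBlaschkePotapov_BB, Filter.Eventually.of_forall Phi_eq, Phi_not_analytic,
    fun _ _ _ _ e => ⟨T e, isBlockToeplitz_T e, isSubnormal_T e, not_normal e⟩⟩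

end Pool.Agent.Results.MP_e84edf_an.SubnormalNeither
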